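import Mathlib
import Pool.Agent.Lib.helper1.Pak

set_option autoImplicit false
set_option linter.unusedSectionVars false

open Finset Filter Topology Matrix

namespace Pool.Agent.Results.MP_8d2225_pr.NoCutoff

section Defs
variable {G : Type} [AddCommGroup G] [Fintype G] [DecidableEq G]

/-- Lazy simple random walk on `Cay(G,S)`: stay with probability `1/2`, otherwise move from `x`
to `x + s` with `s` uniform in `S`. -/
noncomputable def P (S : Finset G) : Matrix G G ℝ := fun x y =>
  (if x = y then 1 / 2 else 0) + (if y - x ∈ S then 1 / (2 * (S.card : ℝ)) else 0)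

/-- Worst-case total variation distance to the uniform law at time `t`. -/
noncomputable def d (S : Finset G) (t : ℕ) : ℝ :=
  ⨆ x : G, (1 / 2) * ∑ y : G, |(P S ^ t) x y - 1 / (Fintype.card G : ℝ)|

/-- The `ε`-mixing time. -/
noncomputable def tmix (S : Finset G) (ε : ℝ) : ℕ := sInf {t : ℕ | d S t ≤ ε}

/-- The largest eigenvalue of `P S` other than `1`. -/
noncomputable def lam2 (S : Finset G) : ℝ :=
  sSup {l : ℝ | l ≠ 1 ∧ ∃ f : G → ℝ, f ≠ 0 ∧ P S *ᵥ f = l • f}

/-- Relaxation time. -/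
noncomputable def trel (S : Finset G) : ℝ := 1 / (1 - lam2 S)

end Defs

open Pool.Agent.Lib.helper1.Pak

lemma P_eq {G : Type} [AddCommGroup G] [Fintype G] [DecidableEq G] {N : ℕ} {Z : Finset G}
    (h : Good N Z) : P Z = lz Z := by
  ext x y
  simp only [P, lz, trans_eq h.symm]
  split_ifs <;> simp <;> ring

lemma facts {G : Type} [AddCommGroup G] [Fintype G] [DecidableEq G] {N : ℕ} {Z : Finset G}
    (h : Good N Z) : AddSubgroup.closure (Z : Set G) = ⊤ ∧ (N : ℝ) ≤ tmix Z (1 / 4) / trel Z ∧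
      (2 : ℝ) ≤ (tmix Z (1 / 20) : ℝ) / (tmix Z (1 - 1 / 20) : ℝ) := by
  have hnum := numerics (d Z) N (fun t ht => by
      refine (lz_low h t ht).trans ?_
      rw [← P_eq h]
      exact le_ciSup (f := fun x : G => (1 / 2) * ∑ y : G,
        |(P Z ^ t) x y - 1 / (Fintype.card G : ℝ)|) (Finite.bddAbove_range _) 0)
    (fun k => by
      refine ciSup_le fun x => ?_
      rw [P_eq h]
      exact tv_le_sep _ (((lz_DS h).pow _).row x) _ (by positivity) (lz_up h k x))
  refine ⟨?_, ?_, hnum.2⟩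
  · rw [eq_top_iff]
    intro y _
    obtain ⟨a, ha, b, hb, rfl⟩ := h.two_step y
    exact AddSubgroup.add_mem _ (AddSubgroup.subset_closure ha) (AddSubgroup.subset_closure hb)
  · have h1 : lam2 Z ≤ 3 / 4 := by
      refine Real.sSup_le ?_ (by norm_num)
      rintro l ⟨hl, f, hf, he⟩
      rw [P_eq h] at he
      exact lz_eig h f hf l hl he
    have h2 : 20 * ((N : ℝ) + 1) ≤ tmix Z (1 / 4) := by exact_mod_cast hnum.1
    have hN : (0 : ℝ) ≤ N := by positivity
    rw [trel, div_div_eq_mul_div, div_one]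
    nlinarith

theorem result :
    ∃ (G : ℕ → Type) (_ : ∀ n, AddCommGroup (G n)) (_ : ∀ n, Fintype (G n))
      (_ : ∀ n, DecidableEq (G n)) (S : ∀ n, Finset (G n)),
      Tendsto (fun n => Fintype.card (G n)) atTop atTop ∧
      (∀ n, ∀ s ∈ S n, -s ∈ S n) ∧ (∀ n, 0 ∉ S n) ∧
      (∀ n, AddSubgroup.closure (S n : Set (G n)) = ⊤) ∧
      Tendsto (fun n => (tmix (S n) (1 / 4) : ℝ) / trel (S n)) atTop atTop ∧
      ¬ ∀ ε ∈ Set.Ioo (0 : ℝ) (1 / 2),
        Tendsto (fun n => (tmix (S n) ε : ℝ) / (tmix (S n) (1 - ε) : ℝ)) atTop (𝓝 1) := by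
  choose G i1 i2 i3 Z h using package
  refine ⟨G, i1, i2, i3, Z, ?_, fun n => (h n).symm, fun n => (h n).zero,
    fun n => (facts (h n)).1, ?_, ?_⟩
  · exact tendsto_atTop_mono (fun n => by have := (h n).big; simp only [id]; omega) tendsto_id
  · exact tendsto_atTop_mono (fun n => (facts (h n)).2.1) tendsto_natCast_atTop_atTop
  · intro hc
    have := ge_of_tendsto' (hc (1 / 20) ⟨by norm_num, by norm_num⟩) fun n => (facts (h n)).2.2
    linarith

end Pool.Agent.Results.MP_8d2225_pr.NoCutoff
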